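import Mathlib
import Pool.Agent.J4H39.SC.Stm

set_option autoImplicit false

/-! Job HIT of project SC. -/

namespace Pool.Agent.J4H2.SC

open Finset Filter Real Topology MeasureTheory ProbabilityTheory
open Pool.Agent.J4H39 (iw cw id1 nu nu_apply nuP gaP nu_lim sum_choose_one)
open Pool.Agent.J4H39.SC

/-- the mean after `n` steps of one walk -/
noncomputable def A (f : ℤ → ℝ) (n : ℕ) (x : ℤ) : ℝ :=
  ∑ l ∈ range (n + 1), (n.choose l : ℝ) / 2 ^ n * f (x + (l : ℕ))

theorem A_succ (f : ℤ → ℝ) (n : ℕ) (x : ℤ) : A f (n + 1) x = (A f n x + A f n (x + 1)) / 2 := by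
  unfold A
  rw [sum_range_succ' _ (n + 1)]
  have e1 : ∀ l ∈ range (n + 1), ((n + 1).choose (l + 1) : ℝ) / 2 ^ (n + 1) * f (x + ((l + 1 : ℕ) : ℤ)) =
      (n.choose l : ℝ) / 2 ^ n * f (x + 1 + (l : ℕ)) / 2 +
        (n.choose (l + 1) : ℝ) / 2 ^ n * f (x + ((l + 1 : ℕ) : ℤ)) / 2 := by
    intro l _
    rw [Nat.choose_succ_succ, show x + ((l + 1 : ℕ) : ℤ) = x + 1 + (l : ℕ) by push_cast; ring, pow_succ]
    push_cast
    field_simp
  rw [sum_congr rfl e1, sum_add_distrib]
  have e2 := sum_range_succ' (fun l : ℕ => (n.choose l : ℝ) / 2 ^ n * f (x + (l : ℕ)) / 2) (n + 1)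
  rw [sum_range_succ _ (n + 1), Nat.choose_succ_self] at e2
  simp only [Nat.cast_zero, zero_div, zero_mul, add_zero] at e2
  rw [← sum_div, ← sum_div] at *
  simp only [Nat.choose_zero_right, Nat.cast_one, Nat.cast_zero, add_zero] at *
  rw [pow_succ]
  have e3 : (1 : ℝ) / (2 ^ n * 2) * f x = 1 / 2 ^ n * f x / 2 := by
    field_simp
  rw [e3]
  linarith

theorem iw_prod {K : ℕ} (f : Fin K → ℤ → ℝ) (n : ℕ) : ∀ z : Fin K → ℤ,
    iw (fun z => ∏ i, f i (z i)) n z = ∏ i, A (f i) n (z i) := by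
  induction n with
  | zero =>
    intro z
    simp [iw, A]
  | succ n ih =>
    intro z
    simp only [iw, ih]
    have h := Finset.prod_univ_sum (fun _ : Fin K => (univ : Finset (Fin 2))) (fun i q => A (f i) n (z i + ((q : Fin 2) : ℕ)))
    rw [Fintype.piFinset_univ] at h
    rw [← h]
    have e : ∀ i : Fin K, ∑ q : Fin 2, A (f i) n (z i + ((q : Fin 2) : ℕ)) = 2 * A (f i) (n + 1) (z i) := by
      intro i
      rw [Fin.sum_univ_two, A_succ]
      simp only [Fin.val_zero, Fin.val_one, Nat.cast_zero, Nat.cast_one, add_zero]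
      ring
    rw [prod_congr rfl (fun i _ => e i), prod_mul_distrib, prod_const, card_univ, Fintype.card_fin]
    field_simp

theorem gauss_lo {α β : ℝ} (h : α < β) :
    (β - α) * Real.exp (-2 * max |α| |β| ^ 2) / 4 < (gaussianReal 0 1 (Set.Ico (2 * α) (2 * β))).toReal := by
  rw [gaussianReal_apply_eq_integral 0 (by norm_num), ENNReal.toReal_ofReal
    (integral_nonneg fun _ => gaussianPDFReal_nonneg _ _ _)]
  rw [integral_Ico_eq_integral_Ioo, ← integral_Ioc_eq_integral_Ioo, ← intervalIntegral.integral_of_le (by linarith)]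
  set M := max |α| |β| with hM
  have hc : Continuous fun u : ℝ => gaussianPDFReal 0 1 u := by
    unfold gaussianPDFReal
    fun_prop
  have h1 : ∫ u in (2 * α)..(2 * β), (3 / 8 : ℝ) * Real.exp (-2 * M ^ 2) ≤ ∫ u in (2 * α)..(2 * β), gaussianPDFReal 0 1 u := by
    apply intervalIntegral.integral_mono_on (by linarith) (by simp) (hc.intervalIntegrable _ _)
    intro u hu
    rw [gaussianPDFReal_def]
    simp only [NNReal.coe_one, mul_one, sub_zero]
    have a1 : |u| ≤ 2 * M := by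
      have b1 : |α| ≤ M := le_max_left _ _
      have b2 : |β| ≤ M := le_max_right _ _
      have b3 := neg_abs_le α
      have b4 := le_abs_self β
      rw [abs_le]
      constructor <;> linarith [hu.1, hu.2]
    have a2 : u ^ 2 ≤ 4 * M ^ 2 := by
      have := sq_le_sq' (neg_le_of_abs_le a1) (le_of_abs_le a1)
      nlinarith
    have a3 : Real.exp (-2 * M ^ 2) ≤ Real.exp (-u ^ 2 / 2) := by
      apply Real.exp_le_exp.2
      nlinarith
    have a4 : (3 / 8 : ℝ) ≤ (√ (2 * Real.pi))⁻¹ := by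
      rw [le_inv_comm₀ (by norm_num) (by positivity)]
      rw [Real.sqrt_le_left (by norm_num)]
      have := Real.pi_lt_d2
      norm_num
      linarith
    exact mul_le_mul a4 a3 (Real.exp_pos _).le (by positivity)
  rw [intervalIntegral.integral_const, smul_eq_mul] at h1
  refine lt_of_lt_of_le ?_ h1
  have h2 : 0 < (β - α) * Real.exp (-2 * M ^ 2) := mul_pos (by linarith) (Real.exp_pos _)
  nlinarith

theorem nu_lo {α β : ℝ} (h : α < β) : ∀ᶠ s : ℕ in atTop,
    (β - α) * Real.exp (-2 * max |α| |β| ^ 2) / 4 ≤ (nu s (Set.Ico (2 * α) (2 * β))).toReal := by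
  have h1 : (gaP : Measure ℝ) (frontier (Set.Ico (2 * α) (2 * β))) = 0 := by
    have h2 : (gaP : Measure ℝ) = gaussianReal 0 1 := rfl
    rw [h2]
    rw [frontier_Ico (by linarith)]
    have : NullSingletonClass (gaussianReal 0 1) := nullSingletonClass_gaussianReal (by norm_num)
    exact (Set.toFinite _).measure_zero _
  have h2 := ProbabilityMeasure.tendsto_measure_of_null_frontier_of_tendsto' nu_lim h1
  have h4 := (ENNReal.tendsto_toReal (measure_ne_top (gaP : Measure ℝ) _)).comp h2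
  have h5 := h4.eventually (lt_mem_nhds (gauss_lo h))
  filter_upwards [h5] with s hs
  exact hs.le

theorem t_HIT : S_HIT := by
  intro α β h
  obtain ⟨s₀, hs₀⟩ := eventually_atTop.1 ((nu_lo h).and (eventually_ge_atTop 1))
  refine ⟨s₀, fun s hs K => ?_⟩
  obtain ⟨h1, hs1⟩ := hs₀ s hs
  set P : ℝ := (β - α) * Real.exp (-2 * max |α| |β| ^ 2) / 4 with hP
  set f : ℤ → ℝ := fun y => id1 (¬ ((s : ℝ) / 2 + α * √ s ≤ y ∧ (y : ℝ) < s / 2 + β * √ s)) with hf
  have e1 : (fun z : Fin K → ℤ => id1 (∀ i, ¬ ((s : ℝ) / 2 + α * √ s ≤ z i ∧ (z i : ℝ) < s / 2 + β * √ s))) =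
      fun z => ∏ i, f (z i) := by
    funext z
    by_cases hz : ∀ i, ¬ ((s : ℝ) / 2 + α * √ s ≤ z i ∧ (z i : ℝ) < s / 2 + β * √ s)
    · rw [id1, if_pos hz]
      symm
      apply prod_eq_one
      intro i _
      simp only [hf, id1]
      rw [if_pos (hz i)]
    · rw [id1, if_neg hz]
      push Not at hz
      obtain ⟨i, hi⟩ := hz
      symm
      apply prod_eq_zero (mem_univ i)
      simp only [hf, id1]
      rw [if_neg (not_not.2 hi)]
  rw [e1, iw_prod (fun _ => f)]
  simp only [prod_const, card_univ, Fintype.card_fin]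
  have hsq : (0 : ℝ) < √ s := Real.sqrt_pos.2 (by exact_mod_cast hs1)
  have hss : √ (s : ℝ) * √ s = s := Real.mul_self_sqrt (by positivity)
  have e2 : A f s 0 = 1 - (nu s (Set.Ico (2 * α) (2 * β))).toReal := by
    rw [nu_apply s measurableSet_Ico, ENNReal.toReal_ofReal (sum_nonneg fun l _ =>
      mul_nonneg (by positivity) (Set.indicator_nonneg (fun _ _ => zero_le_one) _)), eq_sub_iff_add_eq]
    unfold A
    rw [← sum_add_distrib]
    refine Eq.trans ?_ (sum_choose_one s)
    apply sum_congr rfl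
    intro l _
    rw [← mul_add]
    conv_rhs => rw [← mul_one ((s.choose l : ℝ) / 2 ^ s)]
    congr 1
    have key : ((2 * (l : ℝ) - s) / √ s ∈ Set.Ico (2 * α) (2 * β)) ↔
        ((s : ℝ) / 2 + α * √ s ≤ ((0 + (l : ℕ) : ℤ) : ℝ) ∧ ((0 + (l : ℕ) : ℤ) : ℝ) < s / 2 + β * √ s) := by
      rw [Set.mem_Ico, le_div_iff₀ hsq, div_lt_iff₀ hsq]
      push_cast
      constructor
      · rintro ⟨a, b⟩; constructor <;> linarith
      · rintro ⟨a, b⟩; constructor <;> linarith
    by_cases hm : (2 * (l : ℝ) - s) / √ s ∈ Set.Ico (2 * α) (2 * β)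
    · rw [Set.indicator_of_mem hm]
      simp only [hf, id1]
      rw [if_neg (not_not.2 (key.1 hm))]
      norm_num
    · rw [Set.indicator_of_notMem hm]
      simp only [hf, id1]
      rw [if_pos (fun hh => hm (key.2 hh))]
      norm_num
  rw [e2]
  have h3 : (nu s (Set.Ico (2 * α) (2 * β))).toReal ≤ 1 := by
    have := prob_le_one (μ := nu s) (s := Set.Ico (2 * α) (2 * β))
    exact ENNReal.toReal_le_of_le_ofReal (by norm_num) (by simpa using this)
  have h4 : 1 - (nu s (Set.Ico (2 * α) (2 * β))).toReal ≤ Real.exp (-P) := by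
    have := Real.add_one_le_exp (-P)
    linarith
  calc (1 - (nu s (Set.Ico (2 * α) (2 * β))).toReal) ^ K ≤ Real.exp (-P) ^ K := pow_le_pow_left₀ (by linarith) h4 K
    _ = Real.exp (-(K * P)) := by rw [← Real.exp_nat_mul]; congr 1; ring

end Pool.Agent.J4H2.SC
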