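import Mathlib
import Pool.Agent.J4H39.SC.Stm
import Pool.Agent.J4H26.CC.D

set_option autoImplicit false

/-! Job MLO of project SC. -/

namespace Pool.Agent.J4H2.SC

open Finset Filter Real Topology
open Pool.Agent.J4H39 (iw cw id1 id1_pos id1_neg id1_mono id1_nonneg id1_le_one U U_le_one U_nonneg U_erf U_monotone
  Erf Erf_mono iw_mono iw_fsum iw_const card_moves)
open Pool.Agent.J4H39.SC
open Pool.Agent.J4H26.AF (moves moves_pos)

theorem cw_mono {K : ℕ} {F G : (Fin K → ℤ) → ℝ} (h : ∀ z, F z ≤ G z) (n : ℕ) : ∀ z, cw F n z ≤ cw G n z := by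
  induction n with
  | zero => intro z; exact h z
  | succ n ih =>
    intro z
    simp only [cw]
    exact div_le_div_of_nonneg_right (sum_le_sum fun p _ => ih _) (card_moves z).le

/-- the main term as a function of the small parameter -/
noncomputable def hh (ρ t : ℝ) : ℝ :=
  2 * √ ((1 - t) / 2) * (2 / √ π * (√ (ρ * (1 - t)) * (1 - t) * (1 - (t * √ (ρ * (1 - t)) * (1 - t)) ^ 2)) - t)

theorem hh_zero {ρ : ℝ} (hρ : 0 < ρ) : hh ρ 0 = √ (8 * ρ / π) := by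
  unfold hh
  simp only [sub_zero, zero_mul, mul_one, ne_eq, OfNat.ofNat_ne_zero, not_false_eq_true, zero_pow]
  rw [eq_comm, Real.sqrt_eq_iff_mul_self_eq (by positivity) (by positivity)]
  have h1 : √ (1 / 2 : ℝ) * √ (1 / 2) = 1 / 2 := Real.mul_self_sqrt (by norm_num)
  have h2 : √ ρ * √ ρ = ρ := Real.mul_self_sqrt hρ.le
  have h3 : √ π * √ π = π := Real.mul_self_sqrt Real.pi_pos.le
  have h4 : (0 : ℝ) < √ π := Real.sqrt_pos.2 Real.pi_pos
  have e : 2 * √ (1 / 2 : ℝ) * (2 / √ π * √ ρ) * (2 * √ (1 / 2) * (2 / √ π * √ ρ)) =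
      16 * (√ (1 / 2 : ℝ) * √ (1 / 2)) * (√ ρ * √ ρ) / (√ π * √ π) := by
    field_simp
    ring
  rw [e, h1, h2, h3]
  ring

theorem hh_cont (ρ : ℝ) : Continuous (hh ρ) := by
  unfold hh
  fun_prop

/-- the parameters -/
theorem par {ρ κ : ℝ} (hρ : 0 < ρ) (hκ : 0 < κ) : ∃ t : ℝ, 0 < t ∧ t < 1 / 2 ∧ √ (8 * ρ / π) - κ < hh ρ t := by
  have h1 : Tendsto (hh ρ) (𝓝[>] 0) (𝓝 (hh ρ 0)) := ((hh_cont ρ).tendsto 0).mono_left nhdsWithin_le_nhds
  rw [hh_zero hρ] at h1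
  have h2 := h1.eventually (lt_mem_nhds (show √ (8 * ρ / π) - κ < √ (8 * ρ / π) by linarith))
  have h3 : ∀ᶠ t : ℝ in 𝓝[>] 0, t ∈ Set.Ioo (0 : ℝ) (1 / 2) := Ioo_mem_nhdsGT (by norm_num)
  obtain ⟨t, ht1, ht2⟩ := (h2.and h3).exists
  exact ⟨t, ht2.1, ht2.2, ht1⟩

theorem hh_eq (ρ t : ℝ) (ht : 0 < t) : hh ρ t =
    2 * √ ((1 - t) / 2) / t * (2 / √ π * (√ (ρ * (1 - t)) * (t - t ^ 2) * (1 - (√ (ρ * (1 - t)) * (t - t ^ 2)) ^ 2)) - t ^ 2) := by
  unfold hh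
  have h4 : (0 : ℝ) < √ π := Real.sqrt_pos.2 Real.pi_pos
  field_simp

/-- a pair of neighbouring walkers -/
theorem pair_lo {ρ t : ℝ} (_hρ : 0 < ρ) (ht : 0 < t) (ht2 : t < 1 / 2) {ε : ℝ} : ∀ n : ℕ, 1 ≤ n →
    (∀ d : ℕ, |U (2 * n) d - Erf (d / √ (2 * (2 * n : ℕ)))| ≤ ε) → ∀ (s : ℕ), ρ * (1 - t) * n ≤ s →
    ∀ d : ℤ, √ s * (t - t ^ 2) ≤ d →
    2 / √ π * (√ (ρ * (1 - t)) * (t - t ^ 2) * (1 - (√ (ρ * (1 - t)) * (t - t ^ 2)) ^ 2)) - ε ≤ U (2 * n) (2 * d) := by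
  intro n hn hU s hs d hd
  have htt : 0 < t - t ^ 2 := by nlinarith
  have hd0 : 0 ≤ d := by
    have : (0 : ℝ) ≤ d := le_trans (by positivity) hd
    exact_mod_cast this
  obtain ⟨e, rfl⟩ := Int.eq_ofNat_of_zero_le hd0
  have h1 := hU (2 * e)
  rw [show ((2 * e : ℕ) : ℤ) = 2 * (e : ℤ) by push_cast; ring] at h1
  have hn0 : (0 : ℝ) < n := by exact_mod_cast hn
  have e1 : (((2 * e : ℕ) : ℝ)) / √ (2 * (2 * n : ℕ)) = e / √ n := by
    have : √ (2 * ((2 * n : ℕ) : ℝ)) = 2 * √ n := by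
      push_cast
      rw [show (2 : ℝ) * (2 * n) = 2 ^ 2 * n by ring, Real.sqrt_mul (by positivity), Real.sqrt_sq (by norm_num)]
    rw [this]
    push_cast
    have : (0 : ℝ) < √ n := Real.sqrt_pos.2 hn0
    field_simp
  rw [e1] at h1
  have h2 : √ (ρ * (1 - t)) * (t - t ^ 2) ≤ e / √ n := by
    have hsn : (0 : ℝ) < √ n := Real.sqrt_pos.2 hn0
    rw [le_div_iff₀ hsn]
    have h3 : √ (ρ * (1 - t)) * √ n ≤ √ s := by
      rw [← Real.sqrt_mul' _ hn0.le]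
      exact Real.sqrt_le_sqrt hs
    have h4 : √ (ρ * (1 - t)) * (t - t ^ 2) * √ n = √ (ρ * (1 - t)) * √ n * (t - t ^ 2) := by ring
    rw [h4]
    refine (mul_le_mul_of_nonneg_right h3 htt.le).trans ?_
    exact_mod_cast hd
  have h3 := Erf_mono h2
  have h4 := Pool.Agent.J4H26.CC.Erf_dn (x := √ (ρ * (1 - t)) * (t - t ^ 2)) (by positivity)
  rw [abs_le] at h1
  linarith [h1.1]

/-- the intervals -/
def inI (s : ℕ) (t : ℝ) (J : ℕ) (j : ℕ) (y : ℤ) : Prop :=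
  (s : ℝ) / 2 + (((j : ℝ) - J) * t) * √ s ≤ y ∧ (y : ℝ) < s / 2 + (((j : ℝ) - J) * t + t ^ 2) * √ s

/-- if all intervals are hit -/
theorem hit_lo (hLO : S_LO) {ρ t : ℝ} (hρ : 0 < ρ) (ht : 0 < t) (ht2 : t < 1 / 2) {n s k J : ℕ} (hn : 1 ≤ n)
    (hs1 : 1 ≤ s)
    (hU : ∀ d : ℕ, |U (2 * n) d - Erf (d / √ (2 * (2 * n : ℕ)))| ≤ t ^ 2) (hs : ρ * (1 - t) * n ≤ s)
    (z : Fin k → ℤ) (hz : ∀ j ≤ 2 * J, ∃ i, inI s t J j (z i)) {r : ℝ} (hr : 0 < r) :
    cw (fun y : Fin k → ℤ => id1 ((ncl y : ℝ) ≤ 1 + 2 * J * (2 / √ π * (√ (ρ * (1 - t)) * (t - t ^ 2) *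
      (1 - (√ (ρ * (1 - t)) * (t - t ^ 2)) ^ 2)) - t ^ 2) - r)) n z ≤ 2 * J / r ^ 2 := by
  have hz' : ∀ j : Fin (2 * J + 1), ∃ i, inI s t J j (z i) := fun j => hz j (by omega)
  choose c hc using hz'
  have hsq : (0 : ℝ) < √ s := Real.sqrt_pos.2 (by exact_mod_cast hs1)
  have htt : 0 < t - t ^ 2 := by nlinarith
  have hmono : StrictMono (fun j => z (c j)) := by
    rw [Fin.strictMono_iff_lt_succ]
    intro j
    have h1 := hc j.castSucc
    have h2 := hc j.succ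
    unfold inI at h1 h2
    rw [Fin.val_castSucc] at h1
    rw [Fin.val_succ] at h2
    have h3 : (z (c j.castSucc) : ℝ) < z (c j.succ) := by
      refine h1.2.trans_le (le_trans ?_ h2.1)
      push_cast
      nlinarith
    exact_mod_cast h3
  have hgap : ∀ j : Fin (2 * J), √ s * (t - t ^ 2) ≤ ((z (c j.succ) - z (c j.castSucc) : ℤ) : ℝ) := by
    intro j
    have h1 := hc j.castSucc
    have h2 := hc j.succ
    unfold inI at h1 h2
    rw [Fin.val_castSucc] at h1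
    rw [Fin.val_succ] at h2
    push_cast at h1 h2 ⊢
    nlinarith [h1.2, h2.1]
  set u₁ : ℝ := 2 / √ π * (√ (ρ * (1 - t)) * (t - t ^ 2) * (1 - (√ (ρ * (1 - t)) * (t - t ^ 2)) ^ 2)) - t ^ 2 with hu
  set E : ℝ := ∑ j : Fin (2 * J), U (2 * n) (2 * (z (c j.succ) - z (c j.castSucc))) with hE
  have hE1 : 2 * J * u₁ ≤ E := by
    have : ∑ _j : Fin (2 * J), u₁ ≤ E := sum_le_sum fun j _ => pair_lo hρ ht ht2 n hn hU s hs _ (hgap j)
    rw [sum_const, card_univ, Fintype.card_fin, nsmul_eq_mul] at this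
    push_cast at this
    exact this
  have hE2 : E ≤ 2 * J := by
    have : E ≤ ∑ _j : Fin (2 * J), (1 : ℝ) := sum_le_sum fun j _ => U_le_one _ _
    rw [sum_const, card_univ, Fintype.card_fin, nsmul_eq_mul, mul_one] at this
    push_cast at this
    exact this
  have h := hLO k n (2 * J) z c E r hmono hr hE
  have h2 : ∀ y : Fin k → ℤ, id1 ((ncl y : ℝ) ≤ 1 + 2 * J * u₁ - r) ≤ id1 ((ncl y : ℝ) ≤ 1 + E - r) := fun y =>
    id1_mono fun hy => hy.trans (by linarith)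
  exact (cw_mono h2 n z).trans (h.trans (div_le_div_of_nonneg_right hE2 (by positivity)))

theorem iw_addc {K : ℕ} (F : (Fin K → ℤ) → ℝ) (c : ℝ) (n : ℕ) : ∀ z, iw (fun z => F z + c) n z = iw F n z + c := by
  induction n with
  | zero => intro z; rfl
  | succ n ih =>
    intro z
    simp only [iw, ih]
    rw [sum_add_distrib, sum_const, card_univ, add_div]
    congr 1
    simp

theorem big_x {t δ : ℝ} (ht : 0 < t) (hδ : 0 < δ) : ∀ᶠ x : ℝ in atTop,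
    (2 / t * x) * Real.exp (-(t ^ 2 / 4 * Real.exp (t * x))) ≤ δ := by
  have h1 : Tendsto (fun x : ℝ => t * x) atTop atTop := tendsto_id.const_mul_atTop ht
  have h2 := (Real.tendsto_pow_mul_exp_neg_atTop_nhds_zero 1).comp h1
  have h3 := h2.const_mul (8 / t ^ 4)
  rw [mul_zero] at h3
  filter_upwards [h3.eventually (Iic_mem_nhds hδ), eventually_gt_atTop 0] with x hx hx0
  refine le_trans ?_ hx
  simp only [Function.comp, pow_one]
  have hy : 0 < t ^ 2 / 4 * Real.exp (t * x) := by positivity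
  have h4 : Real.exp (-(t ^ 2 / 4 * Real.exp (t * x))) ≤ 1 / (t ^ 2 / 4 * Real.exp (t * x)) := by
    rw [Real.exp_neg, one_div]
    apply inv_anti₀ hy
    have := Real.add_one_le_exp (t ^ 2 / 4 * Real.exp (t * x))
    linarith
  calc (2 / t * x) * Real.exp (-(t ^ 2 / 4 * Real.exp (t * x)))
      ≤ (2 / t * x) * (1 / (t ^ 2 / 4 * Real.exp (t * x))) := mul_le_mul_of_nonneg_left h4 (by positivity)
    _ = 8 / t ^ 4 * (t * x * Real.exp (-(t * x))) := by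
      rw [Real.exp_neg]
      have := Real.exp_pos (t * x)
      field_simp
      ring

theorem t_MLO : S_LO → S_HIT → S_MLO := by
  intro hLO hHIT ρ η δ hρ hη hδ
  set c₀ : ℝ := √ (8 * ρ / π) with hc₀
  have hc₀0 : 0 < c₀ := Real.sqrt_pos.2 (by positivity)
  obtain ⟨η₀, hη₀, hη₀1, hη₀2⟩ : ∃ η₀ : ℝ, 0 < η₀ ∧ η₀ ≤ η ∧ η₀ ≤ c₀ :=
    ⟨min η c₀, lt_min hη hc₀0, min_le_left _ _, min_le_right _ _⟩
  obtain ⟨t, ht, ht2, hh1⟩ := par hρ (show 0 < η₀ / 4 by positivity)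
  rw [← hc₀] at hh1
  set θ : ℝ := √ ((1 - t) / 2) with hθ
  have hθ0 : 0 < θ := Real.sqrt_pos.2 (by linarith)
  have hθ2 : θ * θ = (1 - t) / 2 := Real.mul_self_sqrt (by linarith)
  have hθ1 : θ ≤ 1 := by nlinarith
  set u₁ : ℝ := 2 / √ π * (√ (ρ * (1 - t)) * (t - t ^ 2) * (1 - (√ (ρ * (1 - t)) * (t - t ^ 2)) ^ 2)) - t ^ 2 with hu
  have hh2 : hh ρ t = 2 * θ / t * u₁ := hh_eq ρ t ht
  have hu0 : 0 < u₁ := by
    by_contra hcon
    push Not at hcon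
    have : 2 * θ / t * u₁ ≤ 0 := mul_nonpos_of_nonneg_of_nonpos (by positivity) hcon
    rw [← hh2] at this
    linarith
  have hlog : Tendsto (fun k : ℕ => Real.log (k : ℝ)) atTop atTop := Real.tendsto_log_atTop.comp tendsto_natCast_atTop_atTop
  have hL : Tendsto (fun k : ℕ => √ (Real.log (k : ℝ))) atTop atTop := Real.tendsto_sqrt_atTop.comp hlog
  obtain ⟨k₀, hk₀⟩ := eventually_atTop.1 ((hlog.eventually (big_x ht (half_pos hδ))).and
    ((hL.eventually_ge_atTop 1).and ((hL.eventually_ge_atTop (2 * t / θ)).and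
    ((hL.eventually_ge_atTop (8 * u₁ / η₀)).and ((hL.eventually_ge_atTop (64 / (t * η₀ ^ 2 * δ))).and
      (eventually_ge_atTop 1))))))
  refine ⟨k₀, fun k hk => ?_⟩
  obtain ⟨b1, b2, b3, b4, b5, b6⟩ := hk₀ k hk
  set L : ℝ := √ (Real.log (k : ℝ)) with hLd
  have hL0 : 0 < L := by linarith
  have hk0 : (0 : ℝ) < k := by exact_mod_cast b6
  have hLL : L * L = Real.log k := by
    apply Real.mul_self_sqrt
    exact Real.log_nonneg (by exact_mod_cast b6)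
  rw [div_le_iff₀ hθ0] at b3
  rw [div_le_iff₀ hη₀] at b4
  rw [div_le_iff₀ (by positivity)] at b5
  have hx0 : 0 ≤ θ * L / t - 1 := by
    rw [sub_nonneg, le_div_iff₀ ht]
    linarith
  set J : ℕ := ⌊θ * L / t - 1⌋₊ with hJ
  have hJ1 : (J : ℝ) ≤ θ * L / t - 1 := Nat.floor_le hx0
  have hJ2 : θ * L / t - 1 < J + 1 := Nat.lt_floor_add_one _
  have hJt : ((J : ℝ) + 1) * t ≤ θ * L := by
    have : (J : ℝ) + 1 ≤ θ * L / t := by linarith
    rwa [le_div_iff₀ ht] at this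
  have hα : ∀ j : ℕ, ((j : ℝ) - J) * t < ((j : ℝ) - J) * t + t ^ 2 := fun j => by
    have : 0 < t ^ 2 := by positivity
    linarith
  choose S hS using fun j : ℕ => hHIT (((j : ℝ) - J) * t) (((j : ℝ) - J) * t + t ^ 2) (hα j)
  obtain ⟨q₀, hq₀⟩ := U_erf (show 0 < t ^ 2 by positivity)
  obtain ⟨s₁, hs₁⟩ := exists_nat_ge (2 * ρ * (q₀ + 1))
  refine ⟨max (max s₁ 1) ((range (2 * J + 1)).sup S), ρ * t, by positivity, ?_⟩
  intro s n hs hsn
  have hs1 : 1 ≤ s := (le_max_right _ _).trans ((le_max_left _ _).trans hs)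
  have hss₁ : s₁ ≤ s := (le_max_left _ _).trans ((le_max_left _ _).trans hs)
  have hsS : ∀ j ∈ range (2 * J + 1), S j ≤ s := fun j hj => (le_sup hj).trans ((le_max_right _ _).trans hs)
  rw [abs_le] at hsn
  have hn1 : (q₀ : ℝ) + 1 ≤ n := by
    have a1 : 2 * ρ * (q₀ + 1) ≤ s := hs₁.trans (by exact_mod_cast hss₁)
    have a2 : (s : ℝ) ≤ 2 * ρ * n := by
      have : ρ * t * n ≤ ρ * 1 * n := by gcongr; linarith
      linarith [hsn.2]
    have a3 : 2 * ρ * ((q₀ : ℝ) + 1) ≤ 2 * ρ * n := a1.trans a2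
    exact le_of_mul_le_mul_left a3 (by positivity)
  have hn2 : q₀ + 1 ≤ n := by exact_mod_cast hn1
  have hU : ∀ d : ℕ, |U (2 * n) d - Erf (d / √ (2 * (2 * n : ℕ)))| ≤ t ^ 2 := fun d => hq₀ (2 * n) (by omega) d
  have hs3 : ρ * (1 - t) * n ≤ s := by nlinarith [hsn.1]
  set r : ℝ := η₀ / 4 * L with hr
  have hr0 : 0 < r := by positivity
  -- the tail
  have hd : 2 * (J : ℝ) / r ^ 2 ≤ δ / 2 := by
    rw [div_le_iff₀ (by positivity)]
    have a1 : 2 * (J : ℝ) ≤ 2 * L / t := by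
      have : θ * L / t ≤ 1 * L / t := by gcongr
      have e : 2 * L / t = 2 * (1 * L / t) := by ring
      rw [e]
      linarith
    refine a1.trans ?_
    rw [div_le_iff₀ ht, hr]
    have e : δ / 2 * (η₀ / 4 * L) ^ 2 * t = (L * (t * η₀ ^ 2 * δ)) * L / 32 := by ring
    rw [e]
    have e2 := mul_le_mul_of_nonneg_right b5 hL0.le
    linarith
  -- the main term
  have hm : (c₀ - η) * L ≤ 1 + 2 * J * u₁ - r := by
    have a1 : 2 * (θ * L / t - 2) * u₁ ≤ 2 * J * u₁ := by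
      apply mul_le_mul_of_nonneg_right _ hu0.le
      linarith
    have a2 : 2 * (θ * L / t - 2) * u₁ = hh ρ t * L - 4 * u₁ := by rw [hh2]; ring
    have a3 : (c₀ - η₀ / 4) * L ≤ hh ρ t * L := mul_le_mul_of_nonneg_right hh1.le hL0.le
    have a4 : (c₀ - η) * L ≤ (c₀ - η₀) * L := mul_le_mul_of_nonneg_right (by linarith) hL0.le
    rw [hr]
    linarith
  have hpt : ∀ z : Fin k → ℤ, cw (fun y : Fin k → ℤ => id1 ((ncl y : ℝ) ≤ (c₀ - η) * L)) n z ≤
      (∑ j ∈ range (2 * J + 1), id1 (∀ i, ¬ ((s : ℝ) / 2 + (((j : ℝ) - J) * t) * √ s ≤ z i ∧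
        (z i : ℝ) < s / 2 + (((j : ℝ) - J) * t + t ^ 2) * √ s))) + δ / 2 := by
    intro z
    by_cases hz : ∀ j ≤ 2 * J, ∃ i, inI s t J j (z i)
    · have h1 := hit_lo hLO hρ ht ht2 (by omega : 1 ≤ n) hs1 hU hs3 z hz hr0
      have h2 : 0 ≤ ∑ j ∈ range (2 * J + 1), id1 (∀ i, ¬ ((s : ℝ) / 2 + (((j : ℝ) - J) * t) * √ s ≤ z i ∧
        (z i : ℝ) < s / 2 + (((j : ℝ) - J) * t + t ^ 2) * √ s)) := sum_nonneg fun _ _ => id1_nonneg _
      have h3 := cw_mono (fun y : Fin k → ℤ => id1_mono fun (hy : (ncl y : ℝ) ≤ (c₀ - η) * L) => hy.trans hm) n z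
      linarith
    · push Not at hz
      obtain ⟨j, hj, hji⟩ := hz
      have h1 := (Pool.Agent.J4H39.cw_mem (fun y : Fin k → ℤ => id1_nonneg ((ncl y : ℝ) ≤ (c₀ - η) * L))
        (fun y => id1_le_one _) n z).2
      have h2 : (1 : ℝ) ≤ ∑ j ∈ range (2 * J + 1), id1 (∀ i, ¬ ((s : ℝ) / 2 + (((j : ℝ) - J) * t) * √ s ≤ z i ∧
          (z i : ℝ) < s / 2 + (((j : ℝ) - J) * t + t ^ 2) * √ s)) := by
        have h3 : id1 (∀ i, ¬ ((s : ℝ) / 2 + (((j : ℝ) - J) * t) * √ s ≤ z i ∧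
          (z i : ℝ) < s / 2 + (((j : ℝ) - J) * t + t ^ 2) * √ s)) = 1 := id1_pos hji
        rw [← h3]
        exact single_le_sum (f := fun j : ℕ => id1 (∀ i, ¬ ((s : ℝ) / 2 + (((j : ℝ) - J) * t) * √ s ≤ z i ∧
          (z i : ℝ) < s / 2 + (((j : ℝ) - J) * t + t ^ 2) * √ s))) (fun _ _ => id1_nonneg _) (mem_range.2 (by omega))
      linarith
  have h1 := iw_mono hpt s (fun _ => 0)
  rw [iw_addc, iw_fsum] at h1
  refine h1.trans ?_
  have h2 : ∀ j ∈ range (2 * J + 1), iw (fun z : Fin k → ℤ => id1 (∀ i, ¬ ((s : ℝ) / 2 + (((j : ℝ) - J) * t) * √ s ≤ z i ∧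
        (z i : ℝ) < s / 2 + (((j : ℝ) - J) * t + t ^ 2) * √ s))) s (fun _ => 0) ≤
      Real.exp (-(t ^ 2 / 4 * Real.exp (t * Real.log k))) := by
    intro j hj
    refine (hS j s (hsS j hj) k).trans ?_
    rw [Real.exp_le_exp, neg_le_neg_iff, add_sub_cancel_left]
    rw [mem_range] at hj
    have hj1 : |(j : ℝ) - J| ≤ J := by
      have : (j : ℝ) ≤ 2 * J := by exact_mod_cast (by omega : j ≤ 2 * J)
      rw [abs_le]
      constructor <;> linarith [(Nat.cast_nonneg j : (0 : ℝ) ≤ j)]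
    have c1 : |((j : ℝ) - J) * t| ≤ θ * L := by
      rw [abs_mul, abs_of_pos ht]
      nlinarith
    have c2 : |((j : ℝ) - J) * t + t ^ 2| ≤ θ * L := by
      refine (abs_add_le _ _).trans ?_
      rw [abs_mul, abs_of_pos ht, abs_of_pos (show 0 < t ^ 2 by positivity)]
      nlinarith
    have c3 : max |((j : ℝ) - J) * t| |((j : ℝ) - J) * t + t ^ 2| ^ 2 ≤ (θ * L) ^ 2 :=
      pow_le_pow_left₀ (le_max_of_le_left (abs_nonneg _)) (max_le c1 c2) 2
    have c4 : (θ * L) ^ 2 = (1 - t) / 2 * Real.log k := by rw [← hθ2, ← hLL]; ring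
    have c5 : Real.exp (-(1 - t) * Real.log k) ≤
        Real.exp (-2 * max |((j : ℝ) - J) * t| |((j : ℝ) - J) * t + t ^ 2| ^ 2) := by
      apply Real.exp_le_exp.2
      rw [c4] at c3
      linarith
    have c6 : Real.exp (t * Real.log k) = k * Real.exp (-(1 - t) * Real.log k) := by
      conv_rhs => rw [← Real.exp_log hk0]
      rw [Real.log_exp, ← Real.exp_add]
      congr 1
      ring
    rw [c6]
    have c7 : t ^ 2 / 4 * (k * Real.exp (-(1 - t) * Real.log k)) = k * (t ^ 2 * Real.exp (-(1 - t) * Real.log k) / 4) := by ring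
    rw [c7]
    gcongr
  have h3 := sum_le_sum h2
  rw [sum_const, card_range, nsmul_eq_mul] at h3
  have h4 : ((2 * J + 1 : ℕ) : ℝ) ≤ 2 / t * Real.log k := by
    push_cast
    have a0 : θ * L / t ≤ 1 * L / t := by gcongr
    have a1 : L ≤ L * L := by nlinarith
    have a2 : L / t ≤ L * L / t := by gcongr
    rw [← hLL]
    have e : 2 / t * (L * L) = 2 * (L * L / t) := by ring
    rw [e]
    rw [one_mul] at a0
    linarith
  have h5 : ((2 * J + 1 : ℕ) : ℝ) * Real.exp (-(t ^ 2 / 4 * Real.exp (t * Real.log k))) ≤ δ / 2 :=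
    (mul_le_mul_of_nonneg_right h4 (Real.exp_pos _).le).trans b1
  linarith

end Pool.Agent.J4H2.SC
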